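import Mathlib
import Pool.Agent.Lib.MP_05fa0d_nt.Algebra

/-!
# Digital Kronecker - Van der Corput sequences for `Bad(P,q)`

Positive answer to Q1: for every finite field `F` (with `q` elements), every bijection
`E : F → {0,…,q-1}` with `E 0 = 0` (in particular the one fixed in the problem), every
irreducible `P ∈ F[t]` and every `Θ ∈ Bad(P,q)`, the hybrid sequence `(K_n(Θ), V_n(P))`
is low discrepancy: `D_N ≪ (log N)^2 / N`.
-/

namespace Pool.Agent.Results.MP_05fa0d_nt.HybridLowDiscrepancy

open Polynomial Pool.Agent.Lib.MP_05fa0d_nt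

theorem result {F : Type*} [Field F] [Fintype F] (E : F ≃ Fin (Fintype.card F))
    (hE : (E 0 : ℕ) = 0) (P : F[X]) (hP : Irreducible P) (Θ : LaurentSeries F)
    (hΘ : Θ ∈ Bad P) :
    LowDiscrepancy (fun n => (kronecker E Θ n, vanDerCorput E P n)) :=
  low_discrepancy E hE P hP.natDegree_pos Θ hΘ

end Pool.Agent.Results.MP_05fa0d_nt.HybridLowDiscrepancy
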